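import Mathlib

set_option autoImplicit false

/-!
# The conformal Levy-Gromov inequality for Liouville supersolutions fails

The plane is identified with `ℂ`. For `ε > 0` the function `u(x + iy) = -log cosh x - ε y²`
satisfies `Δ u + e^{2u} ≤ 0`, its total area `∫ e^{2u}` is finite and of order `ε^{-1/2}`, and the
length of the boundary of the upper half-plane does not depend on `ε`.
-/

open MeasureTheory Set Filter Topology
open scoped ENNReal ContDiff InnerProductSpace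
open Laplacian

namespace Pool.Agent.Results.MP_c070b6_an.HalfPlaneCounterexample

/-- `u` is a supersolution of the Liouville equation of class `C²`:
`Δ u + e^{2u} ≤ 0` on the whole plane. -/
def IsSupersolution (u : ℂ → ℝ) : Prop :=
  ContDiff ℝ 2 u ∧ ∀ z, (Δ u) z + Real.exp (2 * u z) ≤ 0

/-- The area `A(E) = ∫_E e^{2u} dx` of the metric `e^{2u} δ`. -/
noncomputable def area (u : ℂ → ℝ) (E : Set ℂ) : ℝ≥0∞ :=
  ∫⁻ z in E, ENNReal.ofReal (Real.exp (2 * u z))

/-- The length `L(Ω) = ∫_{∂Ω} e^u ds` of the boundary of `Ω`; `ds` is the one-dimensional Hausdorff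
measure. -/
noncomputable def boundaryLength (u : ℂ → ℝ) (Ω : Set ℂ) : ℝ≥0∞ :=
  ∫⁻ z in frontier Ω, ENNReal.ofReal (Real.exp (u z)) ∂(μH[1] : Measure ℂ)

/-- A smooth domain: nonempty, open, connected, and near every boundary point `p` it is the set
where a smooth function with nonzero differential at `p` is negative. -/
def IsSmoothDomain (Ω : Set ℂ) : Prop :=
  IsOpen Ω ∧ IsConnected Ω ∧ ∀ p ∈ frontier Ω, ∃ (U : Set ℂ) (ρ : ℂ → ℝ),
    IsOpen U ∧ p ∈ U ∧ ContDiff ℝ ∞ ρ ∧ ρ p = 0 ∧ fderiv ℝ ρ p ≠ 0 ∧ Ω ∩ U = {z ∈ U | ρ z < 0}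

/-! ### The supersolution -/

/-- The function `u(x + iy) = -log cosh x - ε y²`. -/
noncomputable def uu (ε : ℝ) (z : ℂ) : ℝ := -Real.log (Real.cosh z.re) - ε * z.im ^ 2

lemma uu_contDiff (ε : ℝ) : ContDiff ℝ ∞ (uu ε) := by
  have h1 : ContDiff ℝ ∞ (fun z : ℂ => Real.cosh z.re) :=
    Real.contDiff_cosh.comp Complex.reCLM.contDiff
  have h2 : ContDiff ℝ ∞ (fun z : ℂ => Real.log (Real.cosh z.re)) :=
    h1.log fun z => (Real.cosh_pos _).ne'
  have h3 : ContDiff ℝ ∞ (fun z : ℂ => ε * z.im ^ 2) :=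
    contDiff_const.mul (Complex.imCLM.contDiff.pow 2)
  exact h2.neg.sub h3

lemma uu_hasFDerivAt (ε : ℝ) (z : ℂ) : HasFDerivAt (uu ε)
    ((-(Real.sinh z.re / Real.cosh z.re)) • Complex.reCLM - (2 * ε * z.im) • Complex.imCLM) z := by
  have h1 : HasFDerivAt (fun z : ℂ => Real.cosh z.re) (Real.sinh z.re • Complex.reCLM) z :=
    (Real.hasDerivAt_cosh z.re).comp_hasFDerivAt z Complex.reCLM.hasFDerivAt
  have h2 := (Real.hasDerivAt_log (Real.cosh_pos z.re).ne').comp_hasFDerivAt z h1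
  have h3 : HasFDerivAt (fun z : ℂ => z.im) Complex.imCLM z := Complex.imCLM.hasFDerivAt
  have h4 := (h3.pow 2).const_mul ε
  have h5 := h2.neg.sub h4
  refine h5.congr_fderiv ?_
  ext v
  simp
  field_simp

lemma uu_laplacian (ε : ℝ) (z : ℂ) :
    (Δ (uu ε)) z = -(1 / Real.cosh z.re ^ 2) - 2 * ε := by
  have hfd : fderiv ℝ (uu ε) = fun z : ℂ =>
      (-(Real.sinh z.re / Real.cosh z.re)) • Complex.reCLM - (2 * ε * z.im) • Complex.imCLM :=
    funext fun z => (uu_hasFDerivAt ε z).fderiv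
  have h1 : HasDerivAt (fun x : ℝ => -(Real.sinh x / Real.cosh x))
      (-(1 / Real.cosh z.re ^ 2)) z.re := by
    have h := ((Real.hasDerivAt_sinh z.re).div (Real.hasDerivAt_cosh z.re)
      (Real.cosh_pos z.re).ne').neg
    refine h.congr_deriv ?_
    have := Real.cosh_sq z.re
    congr 2
    nlinarith
  have h2 : HasFDerivAt (fun z : ℂ => -(Real.sinh z.re / Real.cosh z.re))
      ((-(1 / Real.cosh z.re ^ 2)) • Complex.reCLM) z :=
    h1.comp_hasFDerivAt z Complex.reCLM.hasFDerivAt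
  have h3 : HasFDerivAt (fun z : ℂ => z.im) Complex.imCLM z := Complex.imCLM.hasFDerivAt
  have h4 := h3.const_mul (2 * ε)
  have h5 := (h2.smul_const Complex.reCLM).sub (h4.smul_const Complex.imCLM)
  rw [InnerProductSpace.laplacian_eq_iteratedFDeriv_complexPlane]
  simp only [iteratedFDeriv_two_apply, hfd]
  have h6 : fderiv ℝ (fun z : ℂ => (-(Real.sinh z.re / Real.cosh z.re)) • Complex.reCLM -
      (2 * ε * z.im) • Complex.imCLM) z = _ := h5.fderiv
  rw [h6]
  simp
  ring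

lemma uu_exp (ε : ℝ) (z : ℂ) : Real.exp (uu ε z) =
    (1 / Real.cosh z.re) * Real.exp (-ε * z.im ^ 2) := by
  unfold uu
  rw [sub_eq_add_neg, Real.exp_add, Real.exp_neg, Real.exp_log (Real.cosh_pos _), neg_mul,
    one_div]

lemma uu_exp2 (ε : ℝ) (z : ℂ) : Real.exp (2 * uu ε z) =
    (1 / Real.cosh z.re ^ 2) * Real.exp (-(2 * ε) * z.im ^ 2) := by
  have : 2 * uu ε z = uu ε z + uu ε z := by ring
  rw [this, Real.exp_add, uu_exp]
  have h : Real.exp (-(2 * ε) * z.im ^ 2) = Real.exp (-ε * z.im ^ 2) * Real.exp (-ε * z.im ^ 2) := by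
    rw [← Real.exp_add]; congr 1; ring
  rw [h]
  field_simp

lemma uu_supersolution {ε : ℝ} (hε : 0 < ε) : IsSupersolution (uu ε) := by
  refine ⟨contDiff_infty.1 (uu_contDiff ε) 2, fun z => ?_⟩
  rw [uu_laplacian, uu_exp2]
  have h1 : 0 < 1 / Real.cosh z.re ^ 2 := by
    have := Real.cosh_pos z.re
    positivity
  have h2 : Real.exp (-(2 * ε) * z.im ^ 2) ≤ 1 := by
    rw [Real.exp_le_one_iff]
    nlinarith [mul_nonneg hε.le (sq_nonneg z.im)]
  have := mul_le_mul_of_nonneg_left h2 h1.le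
  linarith

/-! ### Areas -/

/-- the area of a product set -/
lemma area_prod (ε : ℝ) {S : Set ℝ} (hS : MeasurableSet S) :
    area (uu ε) {z : ℂ | z.im ∈ S} = (∫⁻ x : ℝ, ENNReal.ofReal (1 / Real.cosh x ^ 2)) *
      ∫⁻ y in S, ENNReal.ofReal (Real.exp (-(2 * ε) * y ^ 2)) := by
  have hmeas : MeasurableSet {z : ℂ | z.im ∈ S} := Complex.measurable_im hS
  unfold area
  rw [← (Complex.volume_preserving_equiv_real_prod.symm
    Complex.measurableEquivRealProd).setLIntegral_comp_preimage_emb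
    (MeasurableEquiv.measurableEmbedding _)]
  have h1 : (Complex.measurableEquivRealProd.symm) ⁻¹' {z : ℂ | z.im ∈ S} = univ ×ˢ S := by
    ext p
    simp
  rw [h1, Measure.volume_eq_prod, ← Measure.prod_restrict, Measure.restrict_univ]
  have h2 : ∀ p : ℝ × ℝ, ENNReal.ofReal (Real.exp (2 * uu ε
      (Complex.measurableEquivRealProd.symm p))) =
      ENNReal.ofReal (1 / Real.cosh p.1 ^ 2) * ENNReal.ofReal (Real.exp (-(2 * ε) * p.2 ^ 2)) := by
    intro p
    rw [uu_exp2, ENNReal.ofReal_mul (by have := Real.cosh_pos p.1; positivity)]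
    rfl
  simp_rw [h2]
  have m1 : Measurable (fun x : ℝ => 1 / Real.cosh x ^ 2) := by
    have := Real.continuous_cosh.measurable
    fun_prop
  have m2 : Measurable (fun y : ℝ => Real.exp (-(2 * ε) * y ^ 2)) := by fun_prop
  exact lintegral_prod_mul (μ := volume) (ν := volume.restrict S)
    m1.ennreal_ofReal.aemeasurable m2.ennreal_ofReal.aemeasurable

lemma boundary_length (ε : ℝ) : boundaryLength (uu ε) {z : ℂ | 0 < z.im} =
    ∫⁻ x : ℝ, ENNReal.ofReal (1 / Real.cosh x) := by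
  unfold boundaryLength
  have hiso : Isometry (fun x : ℝ => (x : ℂ)) := Complex.isometry_ofReal
  have hr : frontier {z : ℂ | 0 < z.im} = range (fun x : ℝ => (x : ℂ)) := by
    rw [Complex.frontier_setOfPred_lt_im]
    ext z
    constructor
    · intro h
      exact ⟨z.re, Complex.ext (by simp) (by simpa using h.symm)⟩
    · rintro ⟨x, rfl⟩
      simp
  have hm := hiso.map_hausdorffMeasure (d := 1) (Or.inl zero_le_one)
  rw [hr, ← hm, hausdorffMeasure_real, hiso.isClosedEmbedding.measurableEmbedding.lintegral_map]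
  apply lintegral_congr
  intro x
  rw [uu_exp]
  simp

/-- `cosh x ≥ e^{|x|} / 2` -/
lemma cosh_ge (x : ℝ) : Real.exp |x| / 2 ≤ Real.cosh x := by
  rw [← Real.cosh_abs, Real.cosh_eq]
  have := Real.exp_pos (-|x|)
  linarith

lemma inv_cosh_le (x : ℝ) : 1 / Real.cosh x ≤ 4 * (1 + x ^ 2)⁻¹ := by
  have h1 := cosh_ge x
  have h2 := Real.quadratic_le_exp_of_nonneg (abs_nonneg x)
  rw [sq_abs] at h2
  have h3 : (1 + x ^ 2) / 4 ≤ Real.cosh x := by
    have := abs_nonneg x
    linarith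
  have h4 : (0 : ℝ) < (1 + x ^ 2) / 4 := by positivity
  have h5 := one_div_le_one_div_of_le h4 h3
  refine h5.trans (le_of_eq ?_)
  field_simp

lemma s1_lt_top : (∫⁻ x : ℝ, ENNReal.ofReal (1 / Real.cosh x)) < ⊤ := by
  have h : Integrable (fun x : ℝ => 4 * (1 + x ^ 2)⁻¹) := integrable_inv_one_add_sq.const_mul 4
  refine lt_of_le_of_lt (lintegral_mono fun x => ENNReal.ofReal_le_ofReal (inv_cosh_le x)) ?_
  exact h.lintegral_lt_top

lemma s2_lt_top : (∫⁻ x : ℝ, ENNReal.ofReal (1 / Real.cosh x ^ 2)) < ⊤ := by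
  refine lt_of_le_of_lt (lintegral_mono fun x => ENNReal.ofReal_le_ofReal ?_) s1_lt_top
  have h1 := Real.one_le_cosh x
  apply one_div_le_one_div_of_le (Real.cosh_pos x)
  nlinarith

lemma s2_pos : 0 < (∫⁻ x : ℝ, ENNReal.ofReal (1 / Real.cosh x ^ 2)) := by
  rw [lintegral_pos_iff_support]
  · have : Function.support (fun x : ℝ => ENNReal.ofReal (1 / Real.cosh x ^ 2)) = univ := by
      ext x
      simp only [Function.mem_support, mem_univ, iff_true]
      have := Real.cosh_pos x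
      exact (ENNReal.ofReal_pos.2 (by positivity)).ne'
    rw [this]; simp
  · have : Measurable (fun x : ℝ => 1 / Real.cosh x ^ 2) := by
      have := Real.continuous_cosh.measurable
      fun_prop
    exact this.ennreal_ofReal

lemma gauss_pos {ε : ℝ} (hε : 0 < ε) :
    ∫⁻ y in Ioi (0 : ℝ), ENNReal.ofReal (Real.exp (-(2 * ε) * y ^ 2)) =
      ENNReal.ofReal (√(Real.pi / (2 * ε)) / 2) := by
  rw [← integral_gaussian_Ioi, ofReal_integral_eq_lintegral_ofReal]
  · exact (integrable_exp_neg_mul_sq (by positivity)).integrableOn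
  · exact Eventually.of_forall fun x => (Real.exp_pos _).le

lemma gauss_univ {ε : ℝ} (hε : 0 < ε) :
    ∫⁻ y in (univ : Set ℝ), ENNReal.ofReal (Real.exp (-(2 * ε) * y ^ 2)) =
      ENNReal.ofReal (√(Real.pi / (2 * ε))) := by
  rw [← integral_gaussian, Measure.restrict_univ, ofReal_integral_eq_lintegral_ofReal]
  · exact integrable_exp_neg_mul_sq (by positivity)
  · exact Eventually.of_forall fun x => (Real.exp_pos _).le

lemma gauss_neg {ε : ℝ} (hε : 0 < ε) :
    ∫⁻ y in Iic (0 : ℝ), ENNReal.ofReal (Real.exp (-(2 * ε) * y ^ 2)) =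
      ENNReal.ofReal (√(Real.pi / (2 * ε)) / 2) := by
  have h1 := lintegral_add_compl (μ := volume) (fun y : ℝ => ENNReal.ofReal (Real.exp (-(2 * ε) * y ^ 2)))
    (measurableSet_Ioi (a := (0 : ℝ)))
  have h0 := gauss_univ hε
  rw [Measure.restrict_univ] at h0
  rw [compl_Ioi, gauss_pos hε, h0] at h1
  have h2 : ENNReal.ofReal (√(Real.pi / (2 * ε))) =
      ENNReal.ofReal (√(Real.pi / (2 * ε)) / 2) + ENNReal.ofReal (√(Real.pi / (2 * ε)) / 2) := by
    rw [← ENNReal.ofReal_add (by positivity) (by positivity)]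
    congr 1; ring
  rw [h2] at h1
  exact (ENNReal.add_right_inj ENNReal.ofReal_ne_top).1 h1

/-- The upper half-plane is a smooth domain. -/
lemma smoothDomain_upper : IsSmoothDomain {z : ℂ | 0 < z.im} := by
  refine ⟨isOpen_lt continuous_const Complex.continuous_im, ?_, ?_⟩
  · exact (convex_halfSpace_im_gt 0).isConnected ⟨Complex.I, by simp⟩
  · intro p hp
    rw [Complex.frontier_setOfPred_lt_im] at hp
    have hp' : p.im = 0 := hp
    refine ⟨univ, fun z => -z.im, isOpen_univ, mem_univ _, Complex.imCLM.contDiff.neg, ?_, ?_, ?_⟩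
    · simp [hp']
    · intro h
      have h1 : HasFDerivAt (fun z : ℂ => -z.im) (-Complex.imCLM) p :=
        Complex.imCLM.hasFDerivAt.neg
      rw [h1.fderiv] at h
      have := congrArg (fun L : ℂ →L[ℝ] ℝ => L Complex.I) h
      simp at this
    · ext z
      simp

/-- **The conformal Levy-Gromov inequality fails.** For every `M` there are a smooth function `u` on
the plane with `Δ u + e^{2u} ≤ 0` and finite total area `∫ e^{2u}`, and a smooth domain `Ω` (the
upper half-plane), such that the total area is larger than `M` and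
`M L(Ω)² < A(Ω) A(ℝ² \ Ω)`. In particular (`M = 1`) the inequality `L(Ω)² ≥ A(Ω) A(ℝ² \ Ω)` is
false, and there is no bound for the total area (`M = 4π`). -/
theorem result (M : ℝ) : ∃ (u : ℂ → ℝ) (Ω : Set ℂ),
    ContDiff ℝ ∞ u ∧ IsSupersolution u ∧ area u univ < ⊤ ∧ ENNReal.ofReal M < area u univ ∧
    IsSmoothDomain Ω ∧ boundaryLength u Ω < ⊤ ∧
    ENNReal.ofReal M * boundaryLength u Ω ^ 2 < area u Ω * area u Ωᶜ := by
  set S1 := ∫⁻ x : ℝ, ENNReal.ofReal (1 / Real.cosh x) with hS1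
  set S2 := ∫⁻ x : ℝ, ENNReal.ofReal (1 / Real.cosh x ^ 2) with hS2
  have h1 : S1 < ⊤ := s1_lt_top
  have h2 : S2 < ⊤ := s2_lt_top
  have h3 : 0 < S2 := s2_pos
  -- a large Gaussian integral
  obtain ⟨T, hT0, hT1, hT2⟩ : ∃ T : ℝ, 0 < T ∧ ENNReal.ofReal M < S2 * ENNReal.ofReal T ∧
      ENNReal.ofReal M * S1 ^ 2 < (S2 * ENNReal.ofReal (T / 2)) * (S2 * ENNReal.ofReal (T / 2)) := by
    obtain ⟨s1, hs1, e1⟩ : ∃ s1 : ℝ, 0 ≤ s1 ∧ S1 = ENNReal.ofReal s1 :=
      ⟨S1.toReal, ENNReal.toReal_nonneg, (ENNReal.ofReal_toReal h1.ne).symm⟩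
    obtain ⟨s2, hs2, e2⟩ : ∃ s2 : ℝ, 0 < s2 ∧ S2 = ENNReal.ofReal s2 :=
      ⟨S2.toReal, ENNReal.toReal_pos h3.ne' h2.ne, (ENNReal.ofReal_toReal h2.ne).symm⟩
    have hM := abs_nonneg M
    have hM' := le_abs_self M
    refine ⟨2 * (|M| + 1) * (s1 + 1) / s2, by positivity, ?_, ?_⟩
    · rw [e2, ← ENNReal.ofReal_mul hs2.le]
      have e3 : s2 * (2 * (|M| + 1) * (s1 + 1) / s2) = 2 * (|M| + 1) * (s1 + 1) := by
        field_simp
      rw [e3, ENNReal.ofReal_lt_ofReal_iff (by positivity)]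
      nlinarith [mul_nonneg hM hs1]
    · rw [e1, e2, ← ENNReal.ofReal_mul hs2.le, ← ENNReal.ofReal_pow hs1,
        ← ENNReal.ofReal_mul' (by positivity), ← ENNReal.ofReal_mul (by positivity)]
      have e3 : s2 * (2 * (|M| + 1) * (s1 + 1) / s2 / 2) = (|M| + 1) * (s1 + 1) := by
        field_simp
      rw [e3, ENNReal.ofReal_lt_ofReal_iff (by positivity)]
      have h5 : M * s1 ^ 2 ≤ |M| * s1 ^ 2 := mul_le_mul_of_nonneg_right hM' (sq_nonneg s1)
      have h6 : (|M| + 1) * (s1 + 1) * ((|M| + 1) * (s1 + 1)) =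
          |M| * s1 ^ 2 + (|M| ^ 2 * (s1 + 1) ^ 2 + |M| * (s1 ^ 2 + 4 * s1 + 2) + (s1 + 1) ^ 2) := by
        ring
      rw [h6]
      have h7 : 0 ≤ |M| ^ 2 * (s1 + 1) ^ 2 := by positivity
      have h8 : 0 ≤ |M| * (s1 ^ 2 + 4 * s1 + 2) := by positivity
      have h9 : 0 < (s1 + 1) ^ 2 := by positivity
      linarith
  obtain ⟨ε, hε, hεT⟩ : ∃ ε : ℝ, 0 < ε ∧ √(Real.pi / (2 * ε)) = T := by
    refine ⟨Real.pi / (2 * T ^ 2), by positivity, ?_⟩
    have : Real.pi / (2 * (Real.pi / (2 * T ^ 2))) = T ^ 2 := by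
      have := Real.pi_pos
      field_simp
    rw [this, Real.sqrt_sq hT0.le]
  have a1 : area (uu ε) univ = S2 * ENNReal.ofReal T := by
    have := area_prod ε MeasurableSet.univ
    rw [gauss_univ hε, hεT] at this
    rw [← this]
    congr 1
  have a2 : area (uu ε) {z : ℂ | 0 < z.im} = S2 * ENNReal.ofReal (T / 2) := by
    have := area_prod ε (measurableSet_Ioi (a := (0 : ℝ)))
    rw [gauss_pos hε, hεT] at this
    exact this
  have a3 : area (uu ε) {z : ℂ | 0 < z.im}ᶜ = S2 * ENNReal.ofReal (T / 2) := by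
    have := area_prod ε (measurableSet_Iic (a := (0 : ℝ)))
    rw [gauss_neg hε, hεT] at this
    rw [← this]
    congr 1
    ext z
    simp
  refine ⟨uu ε, {z : ℂ | 0 < z.im}, uu_contDiff ε, uu_supersolution hε, ?_, ?_,
    smoothDomain_upper, ?_, ?_⟩
  · rw [a1]; exact ENNReal.mul_lt_top h2 ENNReal.ofReal_lt_top
  · rw [a1]; exact hT1
  · rw [boundary_length]; exact h1
  · rw [boundary_length, a2, a3]; exact hT2

end Pool.Agent.Results.MP_c070b6_an.HalfPlaneCounterexample
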